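import Pool.Agent.T32.RealXi

/-! Composite numbers in all windows `[n, (1+ε) n]` of the integer parts of `ξ (3/2)^n` and
`ξ (4/3)^n`. -/

namespace Pool.Agent.Results.MP_353e3b_nt.CompositeWindows

open Pool.Agent.T32

theorem result :
    -- (i) 3/2, windows
    (∀ ξ : ℚ, 0 < ξ → ∀ ε : ℝ, 0 < ε → ∃ N : ℕ, ∀ n ≥ N, ∃ m : ℕ, n ≤ m ∧ (m : ℝ) ≤ (1 + ε) * n ∧
      ∃ p : ℕ, p.Prime ∧ p ≤ 17 ∧ (p : ℤ) ∣ ⌊(ξ : ℝ) * (3 / 2) ^ m⌋ ∧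
        (p : ℤ) < ⌊(ξ : ℝ) * (3 / 2) ^ m⌋) ∧
    -- (ii) 4/3, windows
    (∀ ξ : ℚ, 0 < ξ → ∀ ε : ℝ, 0 < ε → ∃ N : ℕ, ∀ n ≥ N, ∃ m : ℕ, n ≤ m ∧ (m : ℝ) ≤ (1 + ε) * n ∧
      ∃ p : ℕ, p.Prime ∧ p ≤ 5 ∧ (p : ℤ) ∣ ⌊(ξ : ℝ) * (4 / 3) ^ m⌋ ∧
        (p : ℤ) < ⌊(ξ : ℝ) * (4 / 3) ^ m⌋) ∧
    -- (iii) counting, 3/2
    (∀ ξ : ℚ, 0 < ξ → ∀ C : ℝ, 0 < C → ∃ N : ℕ, ∀ M ≥ N, C * Real.log M ≤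
      {m : ℕ | m ≤ M ∧ 1 < ⌊(ξ : ℝ) * (3 / 2) ^ m⌋ ∧ ¬ Prime ⌊(ξ : ℝ) * (3 / 2) ^ m⌋}.ncard) ∧
    -- (iv) counting, 4/3
    (∀ ξ : ℚ, 0 < ξ → ∀ C : ℝ, 0 < C → ∃ N : ℕ, ∀ M ≥ N, C * Real.log M ≤
      {m : ℕ | m ≤ M ∧ 1 < ⌊(ξ : ℝ) * (4 / 3) ^ m⌋ ∧ ¬ Prime ⌊(ξ : ℝ) * (4 / 3) ^ m⌋}.ncard) ∧
    -- (v) 3/2, every real ξ > 0, wider windows
    (∀ ξ : ℝ, 0 < ξ → ∃ N : ℕ, ∀ n ≥ N, ∃ m : ℕ, n ≤ m ∧ 5 * m ≤ 8 * n ∧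
      ∃ p : ℕ, p.Prime ∧ p ≤ 17 ∧ (p : ℤ) ∣ ⌊ξ * (3 / 2) ^ m⌋ ∧ (p : ℤ) < ⌊ξ * (3 / 2) ^ m⌋) ∧
    -- (vi) 4/3, every real ξ > 0, wider windows
    (∀ ξ : ℝ, 0 < ξ → ∃ N : ℕ, ∀ n ≥ N, ∃ m : ℕ, n ≤ m ∧ 10 * m ≤ 13 * n ∧
      ∃ p : ℕ, p.Prime ∧ p ≤ 5 ∧ (p : ℤ) ∣ ⌊ξ * (4 / 3) ^ m⌋ ∧ (p : ℤ) < ⌊ξ * (4 / 3) ^ m⌋) ∧
    -- (vii) structure of windows without small primes, 3/2, every real ξ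
    (∀ (ξ : ℝ) (n L : ℕ), 80 ≤ L →
      (∀ m, n ≤ m → m ≤ n + L → ∀ p : ℕ, p.Prime → p ≤ 17 → ¬ (p : ℤ) ∣ ⌊ξ * (3 / 2) ^ m⌋) →
      ∀ i : ℕ, 10 ≤ i → i + 10 ≤ L → (2 : ℤ) ^ (L - 10 - i) ∣ ⌊ξ * (3 / 2) ^ (n + i)⌋ + 1 ∧
        1 - Int.fract (ξ * (3 / 2) ^ (n + i)) ≤ ((2 : ℝ) / 3) ^ (L - 10 - i)) ∧
    -- (viii) structure of windows without small primes, 4/3, every real ξ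
    (∀ (ξ : ℝ) (n L : ℕ), 11 ≤ L →
      (∀ m, n ≤ m → m ≤ n + L → ∀ p : ℕ, p.Prime → p ≤ 5 → ¬ (p : ℤ) ∣ ⌊ξ * (4 / 3) ^ m⌋) →
      ∀ i : ℕ, 7 ≤ i → i ≤ L → (3 : ℤ) ^ (L - i) ∣ ⌊ξ * (4 / 3) ^ (n + i)⌋ + 1 ∧
        1 - Int.fract (ξ * (4 / 3) ^ (n + i)) ≤ ((3 : ℝ) / 4) ^ (L - i)) := by
  have eA2 : ∀ (ξ : ℝ) (m : ℕ), A ξ 2 m = ⌊ξ * (3 / 2) ^ m⌋ := by
    intro ξ m
    unfold A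
    norm_num
  have eA3 : ∀ (ξ : ℝ) (m : ℕ), A ξ 3 m = ⌊ξ * (4 / 3) ^ m⌋ := by
    intro ξ m
    unfold A
    norm_num
  have eF2 : ∀ (ξ : ℝ) (m : ℕ), F ξ 2 m = Int.fract (ξ * (3 / 2) ^ m) := by
    intro ξ m
    unfold F
    norm_num
  have eF3 : ∀ (ξ : ℝ) (m : ℕ), F ξ 3 m = Int.fract (ξ * (4 / 3) ^ m) := by
    intro ξ m
    unfold F
    norm_num
  have comp : ∀ (a : ℤ) (p : ℕ), p.Prime → (p : ℤ) ∣ a → (p : ℤ) < a → 1 < a ∧ ¬ Prime a := by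
    intro a p hp hd hl
    have hp1 : (1 : ℤ) < p := by exact_mod_cast hp.one_lt
    refine ⟨by linarith, fun ha => ?_⟩
    have h1 : (p : ℤ).natAbs.Prime := by simpa using hp
    have h2 : a.natAbs.Prime := Int.prime_iff_natAbs_prime.1 ha
    have h3 : (p : ℤ).natAbs ∣ a.natAbs := Int.natAbs_dvd_natAbs.2 hd
    have h4 := (Nat.prime_dvd_prime_iff_eq h1 h2).1 h3
    omega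
  refine ⟨?_, ?_, ?_, ?_, ?_, ?_, ?_, ?_⟩
  · intro ξ hξ ε hε
    obtain ⟨N, hN⟩ := gap2 ξ hξ ε hε
    refine ⟨N, fun n hn => ?_⟩
    obtain ⟨m, h1, h2, h3, p, h4, h5, h6⟩ := hN n hn
    rw [eA2] at h3 h6
    exact ⟨m, h1, h2, p, h4, h5, h6, by omega⟩
  · intro ξ hξ ε hε
    obtain ⟨N, hN⟩ := gap3 ξ hξ ε hε
    refine ⟨N, fun n hn => ?_⟩
    obtain ⟨m, h1, h2, h3, p, h4, h5, h6⟩ := hN n hn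
    rw [eA3] at h3 h6
    exact ⟨m, h1, h2, p, h4, h5, h6, by omega⟩
  · intro ξ hξ C hC
    refine cnt_log (fun m => 1 < ⌊(ξ : ℝ) * (3 / 2) ^ m⌋ ∧ ¬ Prime ⌊(ξ : ℝ) * (3 / 2) ^ m⌋)
      (fun δ hδ => ?_) C hC
    obtain ⟨N, hN⟩ := gap2 ξ hξ δ hδ
    refine ⟨N, fun n hn => ?_⟩
    obtain ⟨m, h1, h2, h3, p, h4, h5, h6⟩ := hN n hn
    rw [eA2] at h3 h6
    exact ⟨m, h1, h2, comp _ p h4 h6 (by omega)⟩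
  · intro ξ hξ C hC
    refine cnt_log (fun m => 1 < ⌊(ξ : ℝ) * (4 / 3) ^ m⌋ ∧ ¬ Prime ⌊(ξ : ℝ) * (4 / 3) ^ m⌋)
      (fun δ hδ => ?_) C hC
    obtain ⟨N, hN⟩ := gap3 ξ hξ δ hδ
    refine ⟨N, fun n hn => ?_⟩
    obtain ⟨m, h1, h2, h3, p, h4, h5, h6⟩ := hN n hn
    rw [eA3] at h3 h6
    exact ⟨m, h1, h2, comp _ p h4 h6 (by omega)⟩
  · intro ξ hξ
    obtain ⟨N, hN⟩ := real2 ξ hξ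
    refine ⟨N, fun n hn => ?_⟩
    obtain ⟨m, h1, h2, h3, p, h4, h5, h6⟩ := hN n hn
    rw [eA2] at h3 h6
    exact ⟨m, h1, h2, p, h4, h5, h6, by omega⟩
  · intro ξ hξ
    obtain ⟨N, hN⟩ := real3 ξ hξ
    refine ⟨N, fun n hn => ?_⟩
    obtain ⟨m, h1, h2, h3, p, h4, h5, h6⟩ := hN n hn
    rw [eA3] at h3 h6
    exact ⟨m, h1, h2, p, h4, h5, h6, by omega⟩
  · intro ξ n L hL h i h1 h2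
    have h3 := struct2 ξ n L hL (fun m hm1 hm2 p hp hp1 => by rw [eA2]; exact h m hm1 hm2 p hp hp1)
      i h1 h2
    rw [eA2, eF2] at h3
    exact h3
  · intro ξ n L hL h i h1 h2
    have h3 := struct3 ξ n L hL (fun m hm1 hm2 p hp hp1 => by rw [eA3]; exact h m hm1 hm2 p hp hp1)
      i h1 h2
    rw [eA3, eF3] at h3
    exact h3

end Pool.Agent.Results.MP_353e3b_nt.CompositeWindows
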